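import Pool.Agent.helper17.EXC.Spec

/-!
# Row RMB: root elements act as transvections on the matrices of trace zero
-/

set_option autoImplicit false

open Finset

namespace Pool.Agent.EXC

theorem RMB_et (a b : Fin 6) : et a b * et a b = 1 := by
  unfold et
  split_ifs <;> norm_num

theorem RMB_etF (F : Type) [Field F] (a b : Fin 6) : ((et a b : ℤ) : F) * ((et a b : ℤ) : F) = 1 := by
  rw [← Int.cast_mul, RMB_et, Int.cast_one]

theorem RMB_single {n : ℕ} (C : Matrix (Fin n) (Fin n) ℤ) {F : Type} [Field F] (δ : Fin 5 → Fin n) (a b : Fin 6)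
    (hab : a ≠ b) : io C δ (Matrix.single a b (1 : F)) = ((et a b : ℤ) : F) • E C (ro δ a b) := by
  have hd : ∀ k : Fin 6, Matrix.single a b (1 : F) k k = 0 := by
    intro k
    rw [Matrix.single_apply, if_neg]
    rintro ⟨h1, h2⟩
    exact hab (h1.trans h2.symm)
  unfold io
  have h1 : ∀ k : Fin 5, (∑ c : Fin 6, if (c : ℕ) ≤ k then Matrix.single a b (1 : F) c c else 0) = 0 := by
    intro k
    refine Finset.sum_eq_zero fun c _ => ?_
    rw [hd c, ite_self]
  have h2 : (∑ k : Fin 5, (∑ c : Fin 6, if (c : ℕ) ≤ k then Matrix.single a b (1 : F) c c else 0) •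
      (ht C (sr (δ k)) : Lm C F)) = 0 := by
    refine Finset.sum_eq_zero fun k _ => ?_
    rw [h1 k, zero_smul]
  rw [h2, zero_add, Finset.sum_eq_single a]
  · rw [Finset.sum_eq_single b]
    · rw [if_neg hab, Matrix.single_apply_same, mul_one]
    · intro d _ hd'
      split_ifs
      · rfl
      · rw [Matrix.single_apply, if_neg, mul_zero, zero_smul]
        rintro ⟨_, h⟩
        exact hd' h.symm
    · intro h
      exact absurd (Finset.mem_univ b) h
  · intro c _ hc
    refine Finset.sum_eq_zero fun d _ => ?_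
    split_ifs
    · rfl
    · rw [Matrix.single_apply, if_neg, mul_zero, zero_smul]
      rintro ⟨h, _⟩
      exact hc h.symm
  · intro h
    exact absurd (Finset.mem_univ a) h

theorem RMB_eMe {F : Type} [Field F] (a b : Fin 6) (M : Matrix (Fin 6) (Fin 6) F) :
    Matrix.single a b (1 : F) * M * Matrix.single a b (1 : F) = M b a • Matrix.single a b (1 : F) := by
  rw [Matrix.single_mul_mul_single, one_mul, mul_one, Matrix.smul_single, smul_eq_mul, mul_one]

theorem RMB_expand {F : Type} [Field F] (a b : Fin 6) (t : F) (M : Matrix (Fin 6) (Fin 6) F) :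
    (1 + Matrix.single a b t) * M * (1 - Matrix.single a b t) =
      M + t • (Matrix.single a b (1 : F) * M - M * Matrix.single a b (1 : F)) +
        (-(t ^ 2 * M b a)) • Matrix.single a b (1 : F) := by
  have h1 : Matrix.single a b t = t • Matrix.single a b (1 : F) := by
    rw [Matrix.smul_single, smul_eq_mul, mul_one]
  have h2 := RMB_eMe a b M
  rw [h1]
  have h3 : (1 + t • Matrix.single a b (1 : F)) * M * (1 - t • Matrix.single a b (1 : F)) =
      M + t • (Matrix.single a b (1 : F) * M - M * Matrix.single a b (1 : F)) -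
        (t * t) • (Matrix.single a b (1 : F) * M * Matrix.single a b (1 : F)) := by
    simp only [add_mul, mul_sub, one_mul, mul_one, Matrix.smul_mul, Matrix.mul_smul, smul_sub, smul_smul]
    abel
  rw [h3, h2, smul_smul, neg_smul, sub_eq_add_neg, pow_two]

theorem RMB_inv {F : Type} [Field F] (a b : Fin 6) (hab : a ≠ b) (t : F) (m : Matrix.SpecialLinearGroup (Fin 6) F)
    (hm : (m : Matrix (Fin 6) (Fin 6) F) = 1 + Matrix.single a b t) :
    ((m⁻¹ : Matrix.SpecialLinearGroup (Fin 6) F) : Matrix (Fin 6) (Fin 6) F) = 1 - Matrix.single a b t := by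
  have h1 : (m : Matrix (Fin 6) (Fin 6) F) * (1 - Matrix.single a b t) = 1 := by
    rw [hm, add_mul, mul_sub, mul_sub, one_mul, one_mul, mul_one, Matrix.single_mul_single_of_ne]
    · rw [sub_zero, sub_add_cancel]
    · exact hab.symm
  have h2 : ((m⁻¹ : Matrix.SpecialLinearGroup (Fin 6) F) : Matrix (Fin 6) (Fin 6) F) * (m : Matrix (Fin 6) (Fin 6) F) = 1 := by
    rw [← Matrix.SpecialLinearGroup.coe_mul, inv_mul_cancel, Matrix.SpecialLinearGroup.coe_one]
  calc ((m⁻¹ : Matrix.SpecialLinearGroup (Fin 6) F) : Matrix (Fin 6) (Fin 6) F)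
      = ((m⁻¹ : Matrix.SpecialLinearGroup (Fin 6) F) : Matrix (Fin 6) (Fin 6) F) *
          ((m : Matrix (Fin 6) (Fin 6) F) * (1 - Matrix.single a b t)) := by rw [h1, mul_one]
    _ = 1 - Matrix.single a b t := by rw [← mul_assoc, h2, one_mul]

theorem RMB_tr {F : Type} [Field F] (m : Matrix.SpecialLinearGroup (Fin 6) F) (M : Matrix (Fin 6) (Fin 6) F) :
    ((m : Matrix (Fin 6) (Fin 6) F) * M * ((m⁻¹ : Matrix.SpecialLinearGroup (Fin 6) F) : Matrix (Fin 6) (Fin 6) F)).trace =
      M.trace := by
  rw [Matrix.trace_mul_comm, ← mul_assoc, ← Matrix.SpecialLinearGroup.coe_mul, inv_mul_cancel,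
    Matrix.SpecialLinearGroup.coe_one, one_mul]

theorem RMB (hIOT : IOT_stmt) (hRHO : RHO_stmt) : RMB_stmt := by
  intro n C _ F _ j0 θ δ hE
  have hI := hIOT n C F j0 θ δ hE
  refine ⟨?_, ?_, ?_, ?_⟩
  · intro a b t g m hab hg hm M hM
    obtain ⟨h1, h2⟩ := hI a b hab M hM
    rw [hg (io C δ M), RMB_inv a b hab t m hm, hm, RMB_expand, io_add, io_add, io_smul, io_smul,
      RMB_single C δ a b hab]
    unfold xe
    rw [h1, h2]
    have he := RMB_etF F a b
    set η : F := ((et a b : ℤ) : F) with hη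
    have e1 : (η * t) • (η • io C δ (Matrix.single a b (1 : F) * M - M * Matrix.single a b (1 : F))) =
        t • io C δ (Matrix.single a b (1 : F) * M - M * Matrix.single a b (1 : F)) := by
      rw [smul_smul]
      congr 1
      calc η * t * η = t * (η * η) := by ring
        _ = t := by rw [he, mul_one]
    have e2 : (η * t) ^ 2 * -(η * M b a) = -(t ^ 2 * M b a) * η := by
      calc (η * t) ^ 2 * -(η * M b a) = -(t ^ 2 * M b a) * η * (η * η) := by ring
        _ = -(t ^ 2 * M b a) * η := by rw [he, mul_one]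
    rw [e1, e2, smul_smul]
  · intro g h m m' hg hh M hM
    have e : (g * h) (io C δ M) = g (h (io C δ M)) := rfl
    rw [e, hh M hM, hg _ (by rw [RMB_tr, hM]), mul_inv_rev, Matrix.SpecialLinearGroup.coe_mul,
      Matrix.SpecialLinearGroup.coe_mul]
    congr 1
    simp only [mul_assoc]
  · intro g m hg M hM
    have e : ∀ x : Lm C F, g⁻¹ x = g.symm x := fun x => rfl
    rw [e, LinearEquiv.symm_apply_eq, hg _ (by rw [RMB_tr, hM]), inv_inv]
    congr 1
    have h1 : (m : Matrix (Fin 6) (Fin 6) F) * ((m⁻¹ : Matrix.SpecialLinearGroup (Fin 6) F) : Matrix (Fin 6) (Fin 6) F) = 1 := by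
      rw [← Matrix.SpecialLinearGroup.coe_mul, mul_inv_cancel, Matrix.SpecialLinearGroup.coe_one]
    calc M = 1 * M * 1 := by rw [one_mul, mul_one]
      _ = _ := by
        rw [← h1]
        simp only [mul_assoc]
  · intro M hM
    rw [inv_one, Matrix.SpecialLinearGroup.coe_one, one_mul, mul_one]
    rfl

end Pool.Agent.EXC
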