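import Pool.Agent.helper32.EXC.Spec11

/-!
# Row en11:GR2 (MP_561ff4_al): `2 k` conjugates of `x` and an element of the group generated by `k` conjugates of `x(t) t⁻¹`
-/

set_option autoImplicit false

open Finset

namespace Pool.Agent.EXC

theorem T11GR2_conj (G : Type) [Group G] (x : MulAut G) (t g : G) :
    (MulAut.conj (g * (x t * t⁻¹) * g⁻¹) : MulAut G) =
      (MulAut.conj g * x * (MulAut.conj g)⁻¹) * (MulAut.conj (g * t) * x * (MulAut.conj (g * t))⁻¹)⁻¹ := by
  have h : (MulAut.conj (x t) : MulAut G) = x * MulAut.conj t * x⁻¹ := by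
    ext y
    simp [MulAut.conj_apply]
  simp only [map_mul, map_inv, h]
  group

theorem T11GR2 : T11GR2_stmt := by
  intro G _ _ x t r k g z hk hz hm
  refine ⟨by omega, ?_⟩
  set c : Fin 2 × Fin k → MulAut G := fun p => if p.1 = 0 then MulAut.conj (g p.2) else MulAut.conj (g p.2 * t) with hc
  refine ⟨fun j => c (finProdFinEquiv.symm j), ?_, ?_⟩
  · intro j
    apply Subgroup.subset_closure
    right
    rw [hc]
    by_cases h : (finProdFinEquiv.symm j).1 = 0
    · exact ⟨g (finProdFinEquiv.symm j).2, by simp only [h, if_true]⟩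
    · exact ⟨g (finProdFinEquiv.symm j).2 * t, by simp only [h, if_false]⟩
  · set H := Subgroup.closure (Set.range fun j : Fin (2 * k) => c (finProdFinEquiv.symm j) * x * (c (finProdFinEquiv.symm j))⁻¹)
      with hH
    have h1 : ∀ p : Fin 2 × Fin k, c p * x * (c p)⁻¹ ∈ H := by
      intro p
      apply Subgroup.subset_closure
      exact ⟨finProdFinEquiv p, by simp only [Equiv.symm_apply_apply]⟩
    have h2 : ∀ i : Fin k, (MulAut.conj (g i * (x t * t⁻¹) * (g i)⁻¹) : MulAut G) ∈ H := by
      intro i
      rw [T11GR2_conj]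
      have h3 := h1 (0, i)
      have h4 := h1 (1, i)
      simp only [hc, if_true, one_ne_zero, if_false] at h3 h4
      exact H.mul_mem h3 (H.inv_mem h4)
    have h5 : (MulAut.conj z : MulAut G) ∈ H := by
      have h6 : Subgroup.closure (Set.range fun i => g i * (x t * t⁻¹) * (g i)⁻¹) ≤
          H.comap (MulAut.conj : G →* MulAut G) := by
        rw [Subgroup.closure_le]
        rintro y ⟨i, rfl⟩
        exact h2 i
      exact h6 hz
    exact (hm _ (pow_orderOf_eq_one _)).trans (H.orderOf_dvd_natCard h5)

end Pool.Agent.EXC
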